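import Pool.Agent.Lib.EqL.Lift
import Pool.Agent.Lib.EJS.Common
import Pool.Agent.Lib.EJS.Defs

/-!
# Invariant central order zero matrix units in the sequence algebra
-/

open scoped ComplexOrder
open Filter Topology

namespace Pool.Agent.Lib.EqL

open Pool.Agent.Lib.EqGamma Pool.Agent.Lib.EqM Pool.Agent.Lib.EJS

universe u v

theorem of_eq_zero_of_le {A : Type u} [CStarAlgebra A] {y : BF ℕ A} {N : ℕ}
    (h : ∀ n, N ≤ n → ‖BF.ev n y‖ ≤ 1 / ((n : ℝ) + 1)) : Seq.of y = 0 := by
  rw [Seq.of_eq_zero]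
  refine squeeze_zero_norm' ?_ tendsto_one_div_add_atTop_nhds_zero_nat
  filter_upwards [eventually_ge_atTop N] with n hn
  exact h n hn

theorem exists_oz {G : Type v} [Group G] [Countable G] {A : Type u} [CStarAlgebra A]
    [TopologicalSpace.SeparableSpace A] {α : G →* (A ≃⋆ₐ[ℂ] A)} {k : ℕ} (h : EqUMat k α) :
    ∃ (e : Fin k → Fin k → Seq A) (h : Seq A), (∀ i j, e i j ∈ fix α) ∧ h ∈ fix α ∧
      (∃ c : Seq A, h = star c * c) ∧ (∃ c : Seq A, 1 - h = star c * c) ∧ 1 - h ∈ J A ∧
      (∀ i j, star (e i j) = e j i) ∧ ∑ i, e i i = h ∧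
      ∀ i j l m, e i j * e l m = if j = l then h * e i m else 0 := by
  classical
  let _ := CStarAlgebra.spectralOrder A
  have := CStarAlgebra.spectralOrderedRing A
  obtain ⟨g, hg⟩ := exists_surjective_nat G
  have hlift := fun n : ℕ => lift h ((Finset.range (n + 1)).image g)
    ((Finset.range (n + 1)).image (TopologicalSpace.denseSeq A))
    (ε := 1 / ((n : ℝ) + 1)) (by positivity)
  choose e c he hc0 hc1 hcτ hca hce hcg hes hem he1 hea heg using hlift
  have h1n : ‖(1 : A)‖ ≤ 1 := by
    have h3 : ‖(1 : A)‖ * ‖(1 : A)‖ = ‖(1 : A)‖ := by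
      rw [← CStarRing.norm_star_mul_self, star_one, one_mul]
    nlinarith [norm_nonneg (1 : A)]
  have hcn : ∀ n, ‖c n‖ ≤ 1 := fun n =>
    (CStarAlgebra.norm_le_norm_of_nonneg_of_le (hc0 n) (hc1 n)).trans h1n
  set x : Fin k → Fin k → BF ℕ A := fun i j => BF.mk (fun n => e n i j) 1 (fun n => he n i j)
    with hx
  set cc : BF ℕ A := BF.mk c 1 hcn with hcc
  have hevx : ∀ n i j, BF.ev n (x i j) = e n i j := fun n i j => rfl
  have hevc : ∀ n, BF.ev n cc = c n := fun n => rfl
  set C : Seq A := Seq.of cc with hC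
  set E : Fin k → Fin k → Seq A := fun i j => Seq.of (x i j) with hE
  -- commutation of `C` and `E`
  have hCE : ∀ i j, C * E i j = E i j * C := by
    intro i j
    rw [← sub_eq_zero, hC, hE, ← map_mul, ← map_mul, ← map_sub]
    refine of_eq_zero_of_le (N := 0) fun n _ => ?_
    rw [map_sub, map_mul, map_mul, hevx, hevc]
    exact hce n i j
  -- `C` is central
  have hCa : ∀ a : A, Seq.const a * C = C * Seq.const a := by
    intro a
    have hcl : IsClosed {a : A | Seq.const a * C = C * Seq.const a} :=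
      isClosed_eq ((shom_continuous Seq.const).mul continuous_const)
        (continuous_const.mul (shom_continuous Seq.const))
    refine (TopologicalSpace.denseRange_denseSeq A).induction_on
      (p := fun a => Seq.const a * C = C * Seq.const a) a hcl fun m => ?_
    symm
    rw [← sub_eq_zero, hC, Seq.const_apply, ← map_mul, ← map_mul, ← map_sub]
    refine of_eq_zero_of_le (N := m) fun n hn => ?_
    rw [map_sub, map_mul, map_mul, hevc, BF.ev_cst]
    exact hca n _ (Finset.mem_image_of_mem _ (Finset.mem_range.2 (Nat.lt_succ_of_le hn)))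
  -- killing
  have hkill : ∀ (y : BF ℕ A) (N : ℕ), (∀ n, N ≤ n → Kill (c n) (1 / ((n : ℝ) + 1)) (BF.ev n y)) →
      (1 - C) * Seq.of y = 0 ∧ Seq.of y * (1 - C) = 0 := by
    intro y N hy
    constructor
    · rw [hC, ← map_one Seq.of, ← map_sub, ← map_mul]
      refine of_eq_zero_of_le (N := N) fun n hn => ?_
      rw [map_mul, map_sub, map_one, hevc]
      exact (hy n hn).1
    · rw [hC, ← map_one Seq.of, ← map_sub, ← map_mul]
      refine of_eq_zero_of_le (N := N) fun n hn => ?_
      rw [map_mul, map_sub, map_one, hevc]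
      exact (hy n hn).2
  have hEs : ∀ i j, (1 - C) * (star (E i j) - E j i) = 0 := by
    intro i j
    rw [hE, ← map_star, ← map_sub]
    refine (hkill _ 0 fun n _ => ?_).1
    rw [map_sub, map_star, hevx, hevx]
    exact hes n i j
  have hEm : ∀ i j l m, (1 - C) * (E i j * E l m - if j = l then E i m else 0) = 0 := by
    intro i j l m
    have h1 : E i j * E l m - (if j = l then E i m else 0) =
        Seq.of (x i j * x l m - if j = l then x i m else 0) := by
      rw [map_sub, map_mul]
      split_ifs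
      · rfl
      · rw [map_zero]
    rw [h1]
    refine (hkill _ 0 fun n _ => ?_).1
    have h2 : BF.ev n (x i j * x l m - if j = l then x i m else 0) =
        e n i j * e n l m - if j = l then e n i m else 0 := by
      rw [map_sub, map_mul, hevx, hevx]
      split_ifs
      · rfl
      · rw [map_zero]
    rw [h2]
    exact hem n i j l m
  have hE1 : (1 - C) * (1 - ∑ i, E i i) = 0 := by
    have h1 : 1 - ∑ i, E i i = Seq.of (1 - ∑ i, x i i) := by
      rw [map_sub, map_one, map_sum]
    rw [h1]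
    refine (hkill _ 0 fun n _ => ?_).1
    have h2 : BF.ev n (1 - ∑ i, x i i) = 1 - ∑ i, e n i i := by
      rw [map_sub, map_one, map_sum]
      rfl
    rw [h2]
    exact he1 n
  have hEa : ∀ i j (a : A), (1 - C) * (Seq.const a * E i j - E i j * Seq.const a) = 0 := by
    intro i j a
    have hcl : IsClosed {a : A | (1 - C) * (Seq.const a * E i j - E i j * Seq.const a) = 0} :=
      isClosed_eq (continuous_const.mul (((shom_continuous Seq.const).mul continuous_const).sub
        (continuous_const.mul (shom_continuous Seq.const)))) continuous_const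
    refine (TopologicalSpace.denseRange_denseSeq A).induction_on
      (p := fun a => (1 - C) * (Seq.const a * E i j - E i j * Seq.const a) = 0) a hcl
      fun m => ?_
    rw [Seq.const_apply, hE, ← map_mul, ← map_mul, ← map_sub]
    refine (hkill _ m fun n hn => ?_).1
    rw [map_sub, map_mul, map_mul, hevx, BF.ev_cst]
    exact hea n i j _ (Finset.mem_image_of_mem _ (Finset.mem_range.2 (Nat.lt_succ_of_le hn)))
  -- invariance
  have hCg : ∀ γ : G, Seq.act α γ C = C := by
    intro γ
    obtain ⟨m, rfl⟩ := hg γ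
    rw [← sub_eq_zero, hC]
    change Seq.of (BFmap _ cc) - Seq.of cc = 0
    rw [← map_sub]
    refine of_eq_zero_of_le (N := m) fun n hn => ?_
    rw [map_sub, ev_BFmap, hevc]
    exact hcg n _ (Finset.mem_image_of_mem _ (Finset.mem_range.2 (Nat.lt_succ_of_le hn)))
  have hEg : ∀ i j (γ : G), (1 - C) * (Seq.act α γ (E i j) - E i j) = 0 := by
    intro i j γ
    obtain ⟨m, rfl⟩ := hg γ
    change (1 - C) * (Seq.of (BFmap _ (x i j)) - Seq.of (x i j)) = 0
    rw [← map_sub]
    refine (hkill _ m fun n hn => ?_).1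
    rw [map_sub, ev_BFmap, hevx]
    exact heg n i j _ (Finset.mem_image_of_mem _ (Finset.mem_range.2 (Nat.lt_succ_of_le hn)))
  -- positivity
  have hsqrt : ∀ n, ∃ d : A, ‖d‖ ≤ 1 ∧ 1 - c n = star d * d := by
    intro n
    obtain ⟨d, hd⟩ := CStarAlgebra.nonneg_iff_eq_star_mul_self.1 (sub_nonneg.2 (hc1 n))
    refine ⟨d, ?_, hd⟩
    have h1 : ‖d‖ * ‖d‖ ≤ 1 := by
      rw [← CStarRing.norm_star_mul_self, ← hd]
      exact (CStarAlgebra.norm_le_norm_of_nonneg_of_le (sub_nonneg.2 (hc1 n))
        (sub_le_self _ (hc0 n))).trans h1n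
    nlinarith [norm_nonneg d]
  have hsqrt' : ∀ n, ∃ d : A, ‖d‖ ≤ 1 ∧ c n = star d * d := by
    intro n
    obtain ⟨d, hd⟩ := CStarAlgebra.nonneg_iff_eq_star_mul_self.1 (hc0 n)
    refine ⟨d, ?_, hd⟩
    have h1 : ‖d‖ * ‖d‖ ≤ 1 := by
      rw [← CStarRing.norm_star_mul_self, ← hd]
      exact hcn n
    nlinarith [norm_nonneg d]
  choose d hd hd' using hsqrt
  choose d2 hd2 hd2' using hsqrt'
  have hCs : star C = C := by
    have h1 : C = star (Seq.of (BF.mk d2 1 hd2)) * Seq.of (BF.mk d2 1 hd2) := by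
      rw [hC, ← map_star, ← map_mul]
      congr 1
      refine BF.ext fun n => ?_
      rw [hevc, map_mul, map_star, BF.ev_mk]
      exact hd2' n
    rw [h1, star_mul, star_star]
  have hCE' : ∀ i j, (1 - C) * E i j = E i j * (1 - C) := by
    intro i j
    rw [sub_mul, mul_sub, one_mul, mul_one, hCE]
  have hCE'' : ∀ i j, (1 - C) * star (E i j) = star (E i j) * (1 - C) := by
    intro i j
    have := congrArg star (hCE' i j)
    rw [star_mul, star_mul, star_sub, star_one, hCs] at this
    exact this.symm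
  refine ⟨fun i j => (1 - C) * E i j, 1 - C, ?_, ?_, ?_, ?_, ?_, ?_, ?_, ?_⟩
  · intro i j
    refine ⟨fun a => ?_, fun γ => ?_⟩
    · change Seq.const a * ((1 - C) * E i j) = (1 - C) * E i j * Seq.const a
      have h1 := hEa i j a
      rw [mul_sub, sub_eq_zero] at h1
      rw [← mul_assoc, mul_sub, mul_one, hCa, mul_assoc, ← h1, sub_mul, sub_mul, one_mul,
        ← mul_assoc]
    · rw [map_mul, map_sub, map_one, hCg]
      have h1 := hEg i j γ
      rwa [mul_sub, sub_eq_zero] at h1
  · refine ⟨fun a => ?_, fun γ => ?_⟩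
    · change Seq.const a * (1 - C) = (1 - C) * Seq.const a
      rw [mul_sub, mul_one, hCa, sub_mul, one_mul]
    · rw [map_sub, map_one, hCg]
  · refine ⟨Seq.of (BF.mk d 1 hd), ?_⟩
    rw [hC, ← map_one Seq.of, ← map_sub, ← map_star, ← map_mul]
    congr 1
    refine BF.ext fun n => ?_
    rw [map_sub, map_one, hevc, map_mul, map_star, BF.ev_mk]
    exact hd' n
  · refine ⟨Seq.of (BF.mk d2 1 hd2), ?_⟩
    rw [sub_sub_cancel, hC, ← map_star, ← map_mul]
    congr 1
    refine BF.ext fun n => ?_
    rw [hevc, map_mul, map_star, BF.ev_mk]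
    exact hd2' n
  · rw [sub_sub_cancel, hC, mem_J]
    intro ε hε
    have h1 := (tendsto_one_div_add_atTop_nhds_zero_nat (𝕜 := ℝ)).eventually_lt_const hε
    filter_upwards [h1] with n hn τ hτ
    have h2 : star (BF.ev n cc) * BF.ev n cc = c n * c n := by
      rw [hevc, (IsSelfAdjoint.of_nonneg (hc0 n)).star_eq]
    rw [h2]
    exact ((hτ.rtr.mono (Block.mul_self_le (hc0 n) (hc1 n))).trans (hcτ n τ hτ)).trans hn.le
  · intro i j
    rw [star_mul, star_sub, star_one, hCs, ← hCE'']
    have h1 := hEs i j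
    rwa [mul_sub, sub_eq_zero] at h1
  · rw [← Finset.mul_sum]
    have h1 := hE1
    rw [mul_sub, sub_eq_zero, mul_one] at h1
    exact h1.symm
  · intro i j l m
    have h1 := hEm i j l m
    rw [mul_sub, sub_eq_zero] at h1
    have h2 : (1 - C) * E i j * ((1 - C) * E l m) = (1 - C) * ((1 - C) * (E i j * E l m)) := by
      rw [← mul_assoc, mul_assoc (1 - C) (E i j), ← hCE' i j]
      simp only [mul_assoc]
    rw [h2, h1]
    split_ifs
    · rfl
    · rw [mul_zero, mul_zero]

end Pool.Agent.Lib.EqL
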