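import Pool.Agent.Lib.EqM.L2
import Pool.Agent.Lib.EJS.Common
import Pool.Agent.Lib.EJS.Defs
import Pool.Agent.Lib.EqGamma.GFinal

/-!
# Central Rordam-Winter pairs give the uniform McDuff property and uniform property Gamma
-/

open scoped ComplexOrder

namespace Pool.Agent.Lib.EqL

open Pool.Agent.Lib.EqGamma Pool.Agent.Lib.EqM Pool.Agent.Lib.EJS

/-- approximately central exact Rordam-Winter pairs of all sizes -/
def CentralRW (A : Type*) [CStarAlgebra A] : Prop :=
  ∀ (n : ℕ) (F : Finset A) (ε : ℝ), 0 < ε → ∃ (e : Fin (n + 1) → Fin (n + 1) → A) (s : A),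
    IsRW n e s ∧ ∀ i j, ∀ a ∈ F, ‖a * e i j - e i j * a‖ ≤ ε

/-- order zero matrix units of size `k` with tracially small defect -/
structure Blk {A : Type*} [CStarAlgebra A] {k : ℕ} (f : Fin k → Fin k → A) (h : A) (ε : ℝ)
    (F : Finset A) : Prop where
  star_f : ∀ i j, star (f i j) = f j i
  mul_f : ∀ i j l m, f i j * f l m = if j = l then h * f i m else 0
  sum_f : ∑ i, f i i = h
  norm_f : ∀ i j, ‖f i j‖ ≤ 1
  star_h : star h = h
  norm_h : ‖h‖ ≤ 1
  norm_one_sub : ‖1 - h‖ ≤ 1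
  tr : ∀ T : A →ₗ[ℝ] ℝ, RTr T → T 1 = 1 → T (1 - h) ≤ ε
  tr2 : ∀ T : A →ₗ[ℝ] ℝ, RTr T → T 1 = 1 → T ((1 - h) * (1 - h)) ≤ ε
  comm : ∀ i j, ∀ a ∈ F, ‖a * f i j - f i j * a‖ ≤ ε

section rw

variable {A : Type*} [CStarAlgebra A] {n : ℕ} {e : Fin (n + 1) → Fin (n + 1) → A} {s : A}

theorem norm_one_le' : ‖(1 : A)‖ ≤ 1 := by
  have h3 : ‖(1 : A)‖ * ‖(1 : A)‖ = ‖(1 : A)‖ := by
    rw [← CStarRing.norm_star_mul_self, star_one, one_mul]
  nlinarith [norm_nonneg (1 : A)]

theorem norm_le_one_of_compl {h c d : A} (h1 : h = star c * c) (h2 : 1 - h = star d * d) :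
    ‖h‖ ≤ 1 := by
  let _ := CStarAlgebra.spectralOrder A
  have := CStarAlgebra.spectralOrderedRing A
  have h3 : 0 ≤ h := by rw [h1]; exact star_mul_self_nonneg c
  have h4 : h ≤ 1 := by
    rw [← sub_nonneg, h2]
    exact star_mul_self_nonneg d
  exact (CStarAlgebra.norm_le_norm_of_nonneg_of_le h3 h4).trans norm_one_le'

theorem rw_trace (hr : IsRW n e s) {T : A →ₗ[ℝ] ℝ} (hT : RTr T) (h1 : T 1 = 1) :
    T (1 - ∑ m, e m m) ≤ 1 / ((n : ℝ) + 1) := by
  let _ := CStarAlgebra.spectralOrder A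
  have := CStarAlgebra.spectralOrderedRing A
  set h := ∑ m, e m m with hh
  obtain ⟨c, hc'⟩ := hr.pos
  have hc : h = star c * c := hc'
  have hhn : ‖h‖ ≤ 1 := norm_le_one_of_compl hc hr.star_s.symm
  have hsn : ‖s‖ ≤ 1 := by
    have h3 : ‖s‖ * ‖s‖ ≤ 1 := by
      rw [← CStarRing.norm_star_mul_self, hr.star_s]
      refine norm_le_one_of_compl hr.star_s.symm (d := c) ?_
      rw [sub_sub_cancel, ← hc]
    nlinarith [norm_nonneg s]
  have hh0 : star h = h := by rw [hc, star_mul, star_star]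
  -- `T (e 0 0 * e 0 0)` is small
  have h2 : ∀ i, T (h * e i i) = T (e 0 0 * e 0 0) := by
    intro i
    have h3 : h * e i i = e i 0 * e 0 i := by rw [hr.mul_e, if_pos rfl]
    have h4 : e 0 0 * e 0 0 = e 0 i * e i 0 := by rw [hr.mul_e, hr.mul_e, if_pos rfl, if_pos rfl]
    rw [h3, h4, hT.tracial]
  have h3 : ((n : ℝ) + 1) * T (e 0 0 * e 0 0) ≤ 1 := by
    have h4 : T (h * h) = ((n : ℝ) + 1) * T (e 0 0 * e 0 0) := by
      conv_lhs => rw [hh, Finset.mul_sum]
      rw [map_sum, Finset.sum_congr rfl (fun i _ => h2 i)]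
      simp
    rw [← h4]
    have h5 := hT.sq_mul_le h 1
    rw [mul_one, hh0, star_one, one_mul, h1, mul_one] at h5
    refine h5.trans ?_
    exact pow_le_one₀ (norm_nonneg _) hhn
  have h4 : T (1 - h) ≤ T (e 0 0 * e 0 0) := by
    rw [← hr.star_s, hT.tracial]
    have h5 : s * star s = star (star s * e 0 0) * (star s * e 0 0) := by
      rw [star_mul, star_star, hr.star_e, ← mul_assoc, hr.e_s]
      have h6 := congrArg star hr.e_s
      rw [star_mul, hr.star_e] at h6
      rw [mul_assoc, h6]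
    rw [h5]
    refine (hT.sq_mul_le _ _).trans ?_
    rw [hr.star_e, norm_star]
    have h7 : 0 ≤ T (e 0 0 * e 0 0) := by
      have := hT.nonneg' (e 0 0)
      rwa [hr.star_e] at this
    exact mul_le_of_le_one_left h7 (pow_le_one₀ (norm_nonneg _) hsn)
  have hn : (0 : ℝ) < (n : ℝ) + 1 := by positivity
  rw [le_div_iff₀ hn, mul_comm]
  exact (mul_le_mul_of_nonneg_left h4 hn.le).trans h3

end rw

theorem exists_blk {A : Type*} [CStarAlgebra A] (h : CentralRW A) {k : ℕ} (hk : 0 < k)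
    (F : Finset A) {ε : ℝ} (hε : 0 < ε) :
    ∃ (f : Fin k → Fin k → A) (h : A), Blk f h ε F := by
  classical
  let _ := CStarAlgebra.spectralOrder A
  have := CStarAlgebra.spectralOrderedRing A
  obtain ⟨q, hq⟩ := exists_nat_one_div_lt hε
  obtain ⟨n, hn⟩ : ∃ n, k * (q + 1) = n + 1 :=
    ⟨k * (q + 1) - 1, (Nat.succ_pred_eq_of_pos (by positivity)).symm⟩
  obtain ⟨e, s, hr, hc⟩ := h n F (ε / ((q : ℝ) + 1)) (by positivity)
  let σ : Fin k × Fin (q + 1) ≃ Fin (n + 1) := finProdFinEquiv.trans (finCongr hn)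
  set H := ∑ m, e m m with hH
  obtain ⟨c, hcc'⟩ := hr.pos
  have hcc : H = star c * c := hcc'
  have hHn : ‖H‖ ≤ 1 := norm_le_one_of_compl hcc hr.star_s.symm
  have hH1n : ‖1 - H‖ ≤ 1 := by
    refine norm_le_one_of_compl hr.star_s.symm (d := c) ?_
    rw [sub_sub_cancel, ← hcc]
  have hHs : star H = H := by rw [hcc, star_mul, star_star]
  set f : Fin k → Fin k → A := fun i j => ∑ r, e (σ (i, r)) (σ (j, r)) with hf
  have hstar : ∀ i j, star (f i j) = f j i := by
    intro i j
    simp only [hf, star_sum, hr.star_e]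
  have hmul : ∀ i j l m, f i j * f l m = if j = l then H * f i m else 0 := by
    intro i j l m
    simp only [hf, Finset.sum_mul_sum, hr.mul_e]
    split_ifs with hjl
    · subst hjl
      rw [Finset.mul_sum]
      refine Finset.sum_congr rfl fun r _ => ?_
      rw [Finset.sum_eq_single r]
      · rw [if_pos rfl]
      · intro t _ ht
        rw [if_neg]
        intro h2
        have := σ.injective h2
        simp only [Prod.mk.injEq] at this
        exact ht this.2.symm
      · intro h2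
        exact absurd (Finset.mem_univ _) h2
    · refine Finset.sum_eq_zero fun r _ => Finset.sum_eq_zero fun t _ => ?_
      rw [if_neg]
      intro h2
      have := σ.injective h2
      simp only [Prod.mk.injEq] at this
      exact hjl this.1
  have hsum : ∑ i, f i i = H := by
    simp only [hf]
    rw [hH, ← Equiv.sum_comp σ (fun m => e m m), Fintype.sum_prod_type]
  have hdn : ∀ j, ‖f j j‖ ≤ 1 := by
    intro j
    have h2 : ‖f j j‖ * ‖f j j‖ ≤ 1 * ‖f j j‖ := by
      rw [← CStarRing.norm_star_mul_self, hstar, hmul, if_pos rfl]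
      exact (norm_mul_le _ _).trans (mul_le_mul_of_nonneg_right hHn (norm_nonneg _))
    nlinarith [norm_nonneg (f j j)]
  have hfn : ∀ i j, ‖f i j‖ ≤ 1 := by
    intro i j
    have h2 : ‖f i j‖ * ‖f i j‖ ≤ 1 := by
      rw [← CStarRing.norm_star_mul_self, hstar, hmul, if_pos rfl]
      exact (norm_mul_le _ _).trans (mul_le_one₀ hHn (norm_nonneg _) (hdn _))
    nlinarith [norm_nonneg (f i j)]
  have htr : ∀ T : A →ₗ[ℝ] ℝ, RTr T → T 1 = 1 → T (1 - H) ≤ ε := by
    intro T hT h1
    refine (rw_trace hr hT h1).trans (le_trans ?_ hq.le)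
    refine one_div_le_one_div_of_le (by positivity) ?_
    have h2 : ((k * (q + 1) : ℕ) : ℝ) = ((n + 1 : ℕ) : ℝ) := by rw [hn]
    push_cast at h2
    rw [← h2]
    have h3 : (1 : ℝ) ≤ k := by exact_mod_cast hk
    nlinarith [show (0 : ℝ) ≤ (q : ℝ) + 1 by positivity]
  refine ⟨f, H, hstar, hmul, hsum, hfn, hHs, hHn, hH1n, htr, ?_, ?_⟩
  · intro T hT h1
    refine le_trans (hT.mul_le_of_le_one ?_ ?_) (htr T hT h1)
    · rw [← hr.star_s]
      exact star_mul_self_nonneg s
    · rw [sub_le_self_iff, hcc]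
      exact star_mul_self_nonneg c
  · intro i j a ha
    have h2 : a * f i j - f i j * a =
        ∑ r, (a * e (σ (i, r)) (σ (j, r)) - e (σ (i, r)) (σ (j, r)) * a) := by
      simp only [hf, Finset.mul_sum, Finset.sum_mul, Finset.sum_sub_distrib]
    rw [h2]
    refine (norm_sum_le _ _).trans ?_
    calc ∑ r : Fin (q + 1), ‖a * e (σ (i, r)) (σ (j, r)) - e (σ (i, r)) (σ (j, r)) * a‖
        ≤ ∑ _r : Fin (q + 1), ε / ((q : ℝ) + 1) := Finset.sum_le_sum fun r _ => hc _ _ a ha
      _ = ε := by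
        rw [Finset.sum_const, Finset.card_univ, Fintype.card_fin, nsmul_eq_mul]
        push_cast
        field_simp

theorem l2_le_norm {A : Type*} [CStarAlgebra A] {T : A →ₗ[ℝ] ℝ} (hT : RTr T) (h1 : T 1 = 1)
    (x : A) : l2 T x ≤ ‖x‖ := by
  have h2 := l2_mul_left_le hT x 1
  rw [mul_one] at h2
  refine h2.trans ?_
  have h3 : l2 T (1 : A) = 1 := by
    rw [l2, star_one, one_mul, h1, Real.sqrt_one]
  rw [h3, mul_one]

theorem uMat_of_centralRW {A : Type*} [CStarAlgebra A] (h : CentralRW A) {k : ℕ} (hk : 0 < k) :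
    UMat k A := by
  intro F ε hε
  set δ : ℝ := min (ε / 2) ((ε / 2) ^ 2) with hδ
  have hδ0 : 0 < δ := lt_min (by positivity) (by positivity)
  obtain ⟨f, H, hb⟩ := exists_blk h hk F hδ0
  refine ⟨f, hb.norm_f, fun τ hτ => ?_⟩
  have hT := hτ.rtr
  have h1 : reT τ 1 = 1 := by rw [reT_apply, hτ.map_one]; rfl
  have hn2 : ∀ x : A, norm2 τ x = l2 (reT τ) x := fun _ => rfl
  have hH : l2 (reT τ) (1 - H) ≤ ε / 2 := by
    rw [l2_le_iff hT (by positivity), star_sub, star_one, hb.star_h]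
    exact (hb.tr2 _ hT h1).trans (min_le_right _ _)
  refine ⟨fun i j => ?_, fun i j l m => ?_, ?_, fun i j a ha => ?_⟩
  · rw [hb.star_f, sub_self, hn2, l2_zero]
    exact hε
  · rw [hb.mul_f]
    split_ifs
    · have h2 : H * f i m - f i m = -((1 - H) * f i m) := by
        rw [sub_mul, one_mul, neg_sub]
      rw [h2, hn2, l2_neg]
      refine (l2_mul_right_le hT _ _).trans_lt ?_
      have h3 := mul_le_of_le_one_right (l2_nonneg (reT τ) (1 - H)) (hb.norm_f i m)
      linarith
    · rw [sub_zero, hn2, l2_zero]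
      exact hε
  · rw [hb.sum_f, hn2]
    linarith
  · rw [hn2]
    refine (l2_le_norm hT h1 _).trans_lt ((hb.comm i j a ha).trans_lt ?_)
    exact (min_le_left _ _).trans_lt (by linarith)

theorem uniformGamma_of_centralRW {A : Type*} [CStarAlgebra A] [PartialOrder A]
    [StarOrderedRing A] (h : CentralRW A) : UniformGamma A := by
  classical
  intro n hn F ε hε
  set S : ℝ := ∑ a ∈ F, ‖a‖ with hS
  have hS0 : 0 ≤ S := Finset.sum_nonneg fun a _ => norm_nonneg a
  have hSa : ∀ a ∈ F, ‖a‖ ≤ S := fun a ha =>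
    Finset.single_le_sum (f := fun a : A => ‖a‖) (fun b _ => norm_nonneg b) ha
  set ε' : ℝ := ε / (2 * (n + 2 * S + 2)) with hε'
  have hε'0 : 0 < ε' := by positivity
  have hε'1 : 2 * (n + 2 * S + 2) * ε' = ε := by
    rw [hε']
    field_simp
  set δ : ℝ := min ε' (ε' ^ 2) with hδ
  have hδ0 : 0 < δ := lt_min (by positivity) (by positivity)
  obtain ⟨f, H, hb⟩ := exists_blk h hn F hδ0
  have hn1 : (1 : ℝ) ≤ n := by exact_mod_cast hn
  have hp : ∀ i j, f i j * f j i = f i i * f i i := fun i j => by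
    rw [hb.mul_f, hb.mul_f, if_pos rfl, if_pos rfl]
  refine ⟨fun i => f i i * f i i, fun i => ⟨?_, ?_⟩, fun i j hij => ?_, fun τ hτ i a ha => ⟨?_, ?_⟩⟩
  · have := star_mul_self_nonneg (f i i)
    rwa [hb.star_f] at this
  · exact (norm_mul_le _ _).trans (mul_le_one₀ (hb.norm_f i i) (norm_nonneg _) (hb.norm_f i i))
  · rw [mul_assoc, ← mul_assoc (f i i) (f j j), hb.mul_f i i j j, if_neg hij, zero_mul, mul_zero]
  · have hT := hτ.rtr
    have h1 : reT τ 1 = 1 := by rw [reT_apply, hτ.map_one]; rfl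
    change l2 (reT τ) _ < ε
    refine (l2_le_norm hT h1 _).trans_lt ?_
    have h2 : f i i * f i i * a - a * (f i i * f i i) =
        -(f i i * (a * f i i - f i i * a)) - (a * f i i - f i i * a) * f i i := by
      noncomm_ring
    rw [h2]
    refine (norm_sub_le _ _).trans_lt ?_
    rw [norm_neg]
    have h3 := hb.comm i i a ha
    have h4 : ‖f i i * (a * f i i - f i i * a)‖ ≤ δ :=
      (norm_mul_le _ _).trans ((mul_le_of_le_one_left (norm_nonneg _) (hb.norm_f i i)).trans h3)
    have h5 : ‖(a * f i i - f i i * a) * f i i‖ ≤ δ :=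
      (norm_mul_le _ _).trans ((mul_le_of_le_one_right (norm_nonneg _) (hb.norm_f i i)).trans h3)
    have h6 : δ ≤ ε' := min_le_left _ _
    nlinarith [mul_nonneg hS0 hε'0.le]
  · have hT := hτ.rtr
    have h1 : reT τ 1 = 1 := by rw [reT_apply, hτ.map_one]; rfl
    have hH : l2 (reT τ) (1 - H) ≤ ε' := by
      rw [l2_le_iff hT (by positivity), star_sub, star_one, hb.star_h]
      exact (hb.tr2 _ hT h1).trans (min_le_right _ _)
    have hij : ∀ j, ‖τ (a * (f i i * f i i)) - τ (a * (f j j * f j j))‖ ≤ ε' := by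
      intro j
      have h2 : τ (a * (f i i * f i i)) - τ (a * (f j j * f j j)) =
          τ ((a * f i j - f i j * a) * f j i) := by
        rw [← hp i j, ← hp j i, sub_mul, map_sub, ← mul_assoc, ← mul_assoc a, hτ.tracial (a * f j i),
          ← mul_assoc]
      rw [h2]
      refine (hτ.norm_le _).trans ((norm_mul_le _ _).trans ?_)
      refine (mul_le_of_le_one_right (norm_nonneg _) (hb.norm_f j i)).trans ?_
      exact (hb.comm i j a ha).trans (min_le_left _ _)
    have hsum : ∑ j, τ (a * (f j j * f j j)) = τ (a * (H * H)) := by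
      rw [← map_sum, ← Finset.mul_sum]
      congr 2
      rw [Finset.sum_congr rfl fun j _ => by rw [hb.mul_f j j j j, if_pos rfl], ← Finset.mul_sum,
        hb.sum_f]
    have hlast : ‖τ (a * (H * H)) - τ a‖ ≤ 2 * S * ε' := by
      have h2 : τ (a * (H * H)) - τ a = τ (a * (1 + H) * -(1 - H)) := by
        rw [← map_sub]
        congr 1
        noncomm_ring
      rw [h2]
      have h3 := hτ.sq_norm_le (a * (1 + H) * -(1 - H))
      have h4 : l2 (reT τ) (a * (1 + H) * -(1 - H)) ≤ 2 * S * ε' := by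
        refine (l2_mul_left_le hT _ _).trans ?_
        rw [l2_neg]
        refine mul_le_mul ?_ hH (l2_nonneg _ _) (by positivity)
        refine (norm_mul_le _ _).trans ?_
        have h5 : ‖(1 : A) + H‖ ≤ 2 := by
          refine (norm_add_le _ _).trans ?_
          linarith [norm_one_le' (A := A), hb.norm_h]
        have := hSa a ha
        nlinarith [norm_nonneg a, norm_nonneg ((1 : A) + H)]
      have h5 : ‖τ (a * (1 + H) * -(1 - H))‖ ≤ l2 (reT τ) (a * (1 + H) * -(1 - H)) :=
        Real.le_sqrt_of_sq_le h3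
      exact h5.trans h4
    have hmain : (n : ℂ) * (τ (a * (f i i * f i i)) - τ a / n) =
        ∑ j : Fin n, (τ (a * (f i i * f i i)) - τ (a * (f j j * f j j))) +
          (τ (a * (H * H)) - τ a) := by
      rw [Finset.sum_sub_distrib, hsum, Finset.sum_const, Finset.card_univ, Fintype.card_fin,
        nsmul_eq_mul]
      have : (n : ℂ) ≠ 0 := by exact_mod_cast hn.ne'
      field_simp
      ring
    have h6 : (n : ℝ) * ‖τ (a * (f i i * f i i)) - τ a / n‖ ≤ n * ε' + 2 * S * ε' := by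
      have h7 : (n : ℝ) * ‖τ (a * (f i i * f i i)) - τ a / n‖ =
          ‖(n : ℂ) * (τ (a * (f i i * f i i)) - τ a / n)‖ := by
        rw [norm_mul, Complex.norm_natCast]
      rw [h7, hmain]
      refine (norm_add_le _ _).trans (add_le_add ?_ hlast)
      refine (norm_sum_le _ _).trans ?_
      calc ∑ j : Fin n, ‖τ (a * (f i i * f i i)) - τ (a * (f j j * f j j))‖
          ≤ ∑ _j : Fin n, ε' := Finset.sum_le_sum fun j _ => hij j
        _ = n * ε' := by
          rw [Finset.sum_const, Finset.card_univ, Fintype.card_fin, nsmul_eq_mul]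
    have h8 := norm_nonneg (τ (a * (f i i * f i i)) - τ a / n)
    nlinarith [mul_nonneg hS0 hε'0.le]

end Pool.Agent.Lib.EqL
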