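import Pool.Agent.Lib.EqM.Defs
import Pool.Agent.Lib.EqGamma.GFinal

/-!
# Commutators and unitaries
-/

open scoped ComplexOrder

namespace Pool.Agent.Lib.EqL

open Pool.Agent.Lib.EqGamma

variable {A : Type*} [CStarAlgebra A]

/-- conjugation by a unitary as a star automorphism -/
noncomputable def adU (u : unitary A) : A ≃⋆ₐ[ℂ] A := Unitary.conjStarAlgAut ℂ A u

theorem adU_apply (u : unitary A) (x : A) : adU u x = u * x * star (u : A) := rfl

private theorem comm_unitary (u : unitary A) (c : A) :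
    ‖c * (u : A) - (u : A) * c‖ = ‖adU u c - c‖ := by
  have h : (adU u c - c) * (u : A) = (u : A) * c - c * (u : A) := by
    rw [adU_apply, sub_mul, mul_assoc, Unitary.coe_star_mul_self, mul_one]
  rw [← CStarRing.norm_mul_coe_unitary (adU u c - c) u, h, norm_sub_rev]

/-- for every `a` there are four unitaries that control the commutators with `a` -/
theorem exists_unitaries (a : A) : ∃ u : Fin 4 → unitary A, ∀ (c : A) (δ : ℝ),
    (∀ i, ‖adU (u i) c - c‖ ≤ δ) → ‖c * a - a * c‖ ≤ 4 * ‖a‖ * δ := by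
  obtain ⟨u, k, ha, hk⟩ := CStarAlgebra.exists_sum_four_unitary a
  refine ⟨u, fun c δ h => ?_⟩
  have hδ : 0 ≤ δ := (norm_nonneg _).trans (h 0)
  have h1 : c * a - a * c = ∑ i, k i • (c * (u i : A) - (u i : A) * c) := by
    conv_lhs => rw [ha]
    rw [Finset.mul_sum, Finset.sum_mul, ← Finset.sum_sub_distrib]
    refine Finset.sum_congr rfl fun i _ => ?_
    rw [mul_smul_comm, smul_mul_assoc, smul_sub]
  have h2 : ‖c * a - a * c‖ ≤ ∑ _i : Fin 4, ‖a‖ / 2 * δ := by
    rw [h1]
    refine (norm_sum_le _ _).trans (Finset.sum_le_sum fun i _ => ?_)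
    rw [norm_smul, comm_unitary]
    exact mul_le_mul (hk i) (h i) (norm_nonneg _) (by positivity)
  refine h2.trans ?_
  rw [Finset.sum_const, Finset.card_univ, Fintype.card_fin, nsmul_eq_mul]
  have : 0 ≤ ‖a‖ * δ := by positivity
  push_cast
  linarith

end Pool.Agent.Lib.EqL
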