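import Pool.Agent.Lib.EqL.Quasi
import Pool.Agent.Lib.EqL.Unit

/-!
# From `L^2` norms to norms

Approximately central and approximately invariant approximate matrix units in all `L^2` norms
become approximately central, approximately invariant and approximate matrix units in norm after
multiplication by `1 - c`, for a tracially small, approximately central, approximately invariant
positive contraction `c`.
-/

open scoped ComplexOrder

namespace Pool.Agent.Lib.EqL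

open Pool.Agent.Lib.EqGamma Pool.Agent.Lib.EqM

/-- `y` is killed by `1 - c` up to `ε` -/
def Kill {A : Type*} [CStarAlgebra A] (c : A) (ε : ℝ) (y : A) : Prop :=
  ‖(1 - c) * y‖ ≤ ε ∧ ‖y * (1 - c)‖ ≤ ε

theorem lift {G : Type*} [Group G] {A : Type*} [CStarAlgebra A] [PartialOrder A]
    [StarOrderedRing A] {k : ℕ} {α : G →* (A ≃⋆ₐ[ℂ] A)} (h : EqUMat k α) (H : Finset G)
    (F : Finset A) {ε : ℝ} (hε : 0 < ε) :
    ∃ (e : Fin k → Fin k → A) (c : A), (∀ i j, ‖e i j‖ ≤ 1) ∧ 0 ≤ c ∧ c ≤ 1 ∧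
      (∀ τ : A →ₗ[ℂ] ℂ, TracialState τ → reT τ c ≤ ε) ∧
      (∀ a ∈ F, ‖c * a - a * c‖ ≤ ε) ∧ (∀ i j, ‖c * e i j - e i j * c‖ ≤ ε) ∧
      (∀ g ∈ H, ‖α g c - c‖ ≤ ε) ∧
      (∀ i j, Kill c ε (star (e i j) - e j i)) ∧
      (∀ i j l m, Kill c ε (e i j * e l m - if j = l then e i m else 0)) ∧
      Kill c ε (1 - ∑ i, e i i) ∧
      (∀ i j, ∀ a ∈ F, Kill c ε (a * e i j - e i j * a)) ∧
      ∀ i j, ∀ g ∈ H, Kill c ε (α g (e i j) - e i j) := by
  classical
  choose ua hua using fun a : A => exists_unitaries a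
  set S : ℝ := ∑ a ∈ F, ‖a‖ with hS
  have hS0 : 0 ≤ S := Finset.sum_nonneg fun a _ => norm_nonneg a
  have hSa : ∀ a ∈ F, ‖a‖ ≤ S := fun a ha =>
    Finset.single_le_sum (f := fun a : A => ‖a‖) (fun b _ => norm_nonneg b) ha
  set ε' : ℝ := ε / (4 * S + 4) with hε'def
  have hden : 0 < 4 * S + 4 := by positivity
  have hε' : 0 < ε' := div_pos hε hden
  have hε'1 : (4 * S + 4) * ε' = ε := by
    rw [hε'def]
    field_simp
  have hε'2 : ε' ≤ ε := by nlinarith [mul_nonneg hS0 hε'.le]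
  obtain ⟨η, hη0, hη⟩ := exists_quasi_unit
    (Fintype.card (({g // g ∈ H} ⊕ ({a // a ∈ F} × Fin 4)) ⊕ (Fin k × Fin k × Fin 4)))
    (Fintype.card ((((Fin k × Fin k) ⊕ (Fin k × Fin k × Fin k × Fin k)) ⊕ Unit) ⊕
      ((Fin k × Fin k × {a // a ∈ F}) ⊕ (Fin k × Fin k × {g // g ∈ H})))) (3 + k + 2 * S) hε'
  obtain ⟨e, he1, he2⟩ := h H F (√η) (Real.sqrt_pos.2 hη0)
  have hC2 : (2 : ℝ) ≤ 3 + k + 2 * S := by
    have : (0 : ℝ) ≤ k := Nat.cast_nonneg k
    linarith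
  have hsm : ∀ (τ : A →ₗ[ℂ] ℂ) (y : A), norm2 τ y < √η → reT τ (star y * y) ≤ η := by
    intro τ y hy
    have := (norm2_lt_iff (Real.sqrt_pos.2 hη0)).1 hy
    rw [Real.sq_sqrt hη0.le] at this
    exact this.le
  have hee : ∀ i j l m, ‖e i j * e l m‖ ≤ 1 := fun i j l m =>
    (norm_mul_le _ _).trans (mul_le_one₀ (he1 i j) (norm_nonneg _) (he1 l m))
  obtain ⟨c, hc0, hc1, hcτ, hcy, hcW⟩ := hη A
    (({g // g ∈ H} ⊕ ({a // a ∈ F} × Fin 4)) ⊕ (Fin k × Fin k × Fin 4))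
    ((((Fin k × Fin k) ⊕ (Fin k × Fin k × Fin k × Fin k)) ⊕ Unit) ⊕
      ((Fin k × Fin k × {a // a ∈ F}) ⊕ (Fin k × Fin k × {g // g ∈ H}))) le_rfl le_rfl
    (Sum.elim (Sum.elim (fun g => α g.1) (fun p => adU (ua p.1.1 p.2)))
      (fun p => adU (ua (e p.1 p.2.1) p.2.2)))
    (Sum.elim (Sum.elim (Sum.elim (fun p => star (e p.1 p.2) - e p.2 p.1)
      (fun p => e p.1 p.2.1 * e p.2.2.1 p.2.2.2 - if p.2.1 = p.2.2.1 then e p.1 p.2.2.2 else 0))
      (fun _ => 1 - ∑ i, e i i))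
      (Sum.elim (fun p => p.2.2.1 * e p.1 p.2.1 - e p.1 p.2.1 * p.2.2.1)
        (fun p => α p.2.2.1 (e p.1 p.2.1) - e p.1 p.2.1))) (by
      rintro (((⟨i, j⟩ | ⟨i, j, l, m⟩) | ⟨⟩) | (⟨i, j, a, ha⟩ | ⟨i, j, g, hg⟩))
      · refine le_trans ?_ hC2
        refine (norm_sub_le _ _).trans ?_
        rw [norm_star]
        linarith [he1 i j, he1 j i]
      · refine le_trans ?_ hC2
        refine (norm_sub_le _ _).trans ?_
        have h1 := hee i j l m
        have h2 : ‖(if j = l then e i m else 0 : A)‖ ≤ 1 := by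
          split_ifs
          · exact he1 i m
          · rw [norm_zero]
            exact zero_le_one
        change ‖e i j * e l m‖ + ‖(if j = l then e i m else 0 : A)‖ ≤ 2
        linarith
      · change ‖1 - ∑ i, e i i‖ ≤ _
        refine (norm_sub_le _ _).trans ?_
        have h1 : ‖(1 : A)‖ ≤ 1 := by
          have h3 : ‖(1 : A)‖ * ‖(1 : A)‖ = ‖(1 : A)‖ := by
            rw [← CStarRing.norm_star_mul_self, star_one, one_mul]
          nlinarith [norm_nonneg (1 : A)]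
        have h2 : ‖∑ i, e i i‖ ≤ k := by
          refine (norm_sum_le _ _).trans ?_
          calc ∑ i, ‖e i i‖ ≤ ∑ _i : Fin k, (1 : ℝ) := Finset.sum_le_sum fun i _ => he1 i i
            _ = k := by simp
        linarith
      · change ‖a * e i j - e i j * a‖ ≤ _
        refine (norm_sub_le _ _).trans ?_
        have h1 : ‖a * e i j‖ ≤ S :=
          (norm_mul_le _ _).trans ((mul_le_of_le_one_right (norm_nonneg a) (he1 i j)).trans
            (hSa a ha))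
        have h2 : ‖e i j * a‖ ≤ S :=
          (norm_mul_le _ _).trans ((mul_le_of_le_one_left (norm_nonneg a) (he1 i j)).trans
            (hSa a ha))
        have : (0 : ℝ) ≤ k := Nat.cast_nonneg k
        linarith
      · change ‖α g (e i j) - e i j‖ ≤ _
        refine le_trans ?_ hC2
        refine (norm_sub_le _ _).trans ?_
        rw [StarAlgEquiv.norm_map]
        linarith [he1 i j]) (by
      rintro (((⟨i, j⟩ | ⟨i, j, l, m⟩) | ⟨⟩) | (⟨i, j, a, ha⟩ | ⟨i, j, g, hg⟩)) τ hτ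
      · exact hsm τ _ ((he2 τ hτ).1 i j)
      · exact hsm τ _ ((he2 τ hτ).2.1 i j l m)
      · exact hsm τ _ (he2 τ hτ).2.2.1
      · exact hsm τ _ ((he2 τ hτ).2.2.2.1 i j a ha)
      · exact hsm τ _ ((he2 τ hτ).2.2.2.2 i j g hg))
  have hkill : ∀ y : A, ‖(1 - c) * y‖ ≤ ε' ∧ ‖y * (1 - c)‖ ≤ ε' → Kill c ε y :=
    fun y hy => ⟨hy.1.trans hε'2, hy.2.trans hε'2⟩
  refine ⟨e, c, he1, hc0, hc1, fun τ hτ => (hcτ τ hτ).trans hε'2, ?_, ?_, ?_, ?_, ?_, ?_, ?_, ?_⟩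
  · intro a ha
    refine (hua a c ε' fun i => hcW (Sum.inl (Sum.inr (⟨a, ha⟩, i)))).trans ?_
    have h1 := hSa a ha
    nlinarith
  · intro i j
    refine (hua (e i j) c ε' fun i' => hcW (Sum.inr (i, j, i'))).trans ?_
    have h1 := he1 i j
    nlinarith [mul_nonneg hS0 hε'.le]
  · intro g hg
    exact (hcW (Sum.inl (Sum.inl ⟨g, hg⟩))).trans hε'2
  · intro i j
    exact hkill _ (hcy (Sum.inl (Sum.inl (Sum.inl (i, j)))))
  · intro i j l m
    exact hkill _ (hcy (Sum.inl (Sum.inl (Sum.inr (i, j, l, m)))))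
  · exact hkill _ (hcy (Sum.inl (Sum.inr ())))
  · intro i j a ha
    exact hkill _ (hcy (Sum.inr (Sum.inl (i, j, ⟨a, ha⟩))))
  · intro i j g hg
    exact hkill _ (hcy (Sum.inr (Sum.inr (i, j, ⟨g, hg⟩))))

end Pool.Agent.Lib.EqL
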