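import Pool.Agent.Lib.EqM.Defs
import Pool.Agent.Lib.EqGamma.GFinal

/-!
# The `m`-th root of a quasi-invariant element is almost invariant
-/

open scoped ComplexOrder

namespace Pool.Agent.Lib.EqL

open Pool.Agent.Lib.EqGamma

variable {A : Type*} [CStarAlgebra A] [PartialOrder A] [StarOrderedRing A]

/-- the `m`-th root -/
noncomputable def root (m : ℕ) (b : A) : A := cfc (fun t : ℝ => t ^ (1 / (m : ℝ))) b

theorem root_nonneg {m : ℕ} {b : A} (hb : 0 ≤ b) : 0 ≤ root m b := by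
  unfold root
  exact cfc_nonneg fun t ht => Real.rpow_nonneg (spectrum_nonneg_of_nonneg hb ht) _

theorem spec_le_one {b : A} (hb1 : ‖b‖ ≤ 1) {t : ℝ} (ht : t ∈ spectrum ℝ b) : t ≤ 1 := by
  rcases subsingleton_or_nontrivial A with hA | hA
  · rw [spectrum.of_subsingleton] at ht
    exact ht.elim
  · exact (Real.le_norm_self t).trans ((spectrum.norm_le_norm_of_mem ht).trans hb1)

theorem root_le_one {m : ℕ} (hm : 0 < m) {b : A} (hb : 0 ≤ b) (hb1 : ‖b‖ ≤ 1) :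
    root m b ≤ 1 := by
  have _ := hm
  unfold root
  exact cfc_le_one _ _ fun t ht => Real.rpow_le_one (spectrum_nonneg_of_nonneg hb ht)
    (spec_le_one hb1 ht) (by positivity)

theorem rootFun_cont {m : ℕ} (hm : 0 < m) : Continuous (fun t : ℝ => t ^ (1 / (m : ℝ))) := by
  refine continuous_id.rpow_const fun t => Or.inr ?_
  positivity

theorem root_smul {m : ℕ} (hm : 0 < m) {c : A} (hc : 0 ≤ c) {lam : ℝ} (h0 : 0 < lam) :
    root m (lam • c) = lam ^ (1 / (m : ℝ)) • root m c := by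
  have hsa : IsSelfAdjoint c := IsSelfAdjoint.of_nonneg hc
  unfold root
  rw [← cfc_comp_const_mul lam (fun t : ℝ => t ^ (1 / (m : ℝ))) c
    (rootFun_cont hm).continuousOn hsa,
    ← cfc_const_mul (lam ^ (1 / (m : ℝ))) (fun t : ℝ => t ^ (1 / (m : ℝ))) c
      (rootFun_cont hm).continuousOn]
  refine cfc_congr fun t ht => ?_
  exact Real.mul_rpow h0.le (spectrum_nonneg_of_nonneg hc ht)

theorem root_mono {m : ℕ} (hm : 0 < m) {b c : A} (hb : 0 ≤ b) (hbc : b ≤ c) :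
    root m b ≤ root m c := by
  have hc : 0 ≤ c := hb.trans hbc
  have hp : (1 / (m : ℝ)) ∈ Set.Icc (0 : ℝ) 1 := by
    refine ⟨by positivity, ?_⟩
    rw [div_le_one (by positivity)]
    exact_mod_cast hm
  have h := CFC.rpow_le_rpow hp hbc
  rw [CFC.rpow_eq_cfc_real hb, CFC.rpow_eq_cfc_real hc] at h
  exact h

theorem norm_le_of_le {x : A} (hx : IsSelfAdjoint x) {s : ℝ} (hs : 0 ≤ s)
    (h1 : x ≤ algebraMap ℝ A s) (h2 : -x ≤ algebraMap ℝ A s) : ‖x‖ ≤ s := by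
  have h2' : algebraMap ℝ A (-s) ≤ x := by
    rw [map_neg]
    exact neg_le.mp h2
  have h3 := (le_algebraMap_iff_spectrum_le hx).mp h1
  have h4 := (algebraMap_le_iff_le_spectrum hx).mp h2'
  rw [← cfc_id' ℝ x hx]
  refine norm_cfc_le hs fun t ht => ?_
  rw [Real.norm_eq_abs, abs_le]
  exact ⟨h4 t ht, h3 t ht⟩

/-- almost invariance -/
theorem norm_root_sub_le {m : ℕ} (hm : 0 < m) {b : A} (hb : 0 ≤ b) (hb1 : ‖b‖ ≤ 1)
    (w : A ≃⋆ₐ[ℂ] A) {lam : ℝ} (h0 : 0 < lam) (h1 : lam ≤ 1) (h2 : lam • w b ≤ b)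
    (h3 : lam • b ≤ w b) : ‖w (root m b) - root m b‖ ≤ (1 / lam) ^ (1 / (m : ℝ)) - 1 := by
  have hp : (0 : ℝ) ≤ 1 / (m : ℝ) := by positivity
  have hsa : IsSelfAdjoint b := IsSelfAdjoint.of_nonneg hb
  have hwn : ∀ x : A, ‖w x‖ = ‖x‖ := fun x => NonUnitalStarAlgHom.norm_map w w.injective x
  have hwc : Continuous w := AddMonoidHomClass.continuous_of_bound w 1 (fun a => by
      rw [one_mul]; exact (hwn a).le)
  have hwb : 0 ≤ w b := map_nonneg w hb
  have hwr : w (root m b) = root m (w b) := by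
    unfold root
    exact StarAlgHomClass.map_cfc w _ b (rootFun_cont hm).continuousOn hwc hsa
      (IsSelfAdjoint.of_nonneg hwb)
  have hr0 : 0 ≤ root m b := root_nonneg hb
  have hr1 : root m b ≤ 1 := root_le_one hm hb hb1
  have hwr0 : 0 ≤ root m (w b) := root_nonneg hwb
  have hwr1 : root m (w b) ≤ 1 := root_le_one hm hwb (by rw [hwn]; exact hb1)
  set s := (1 / lam) ^ (1 / (m : ℝ)) with hs
  have hlp : 0 < lam ^ (1 / (m : ℝ)) := Real.rpow_pos_of_pos h0 _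
  have hs' : s = (lam ^ (1 / (m : ℝ)))⁻¹ := by
    rw [hs, one_div lam, Real.inv_rpow h0.le]
  have hs1 : 1 ≤ s := Real.one_le_rpow (by rw [le_div_iff₀ h0]; linarith) hp
  have key : ∀ x y : A, lam ^ (1 / (m : ℝ)) • x ≤ y → x ≤ s • y := by
    intro x y h
    have h4 : s • (lam ^ (1 / (m : ℝ)) • x) ≤ s • y :=
      smul_le_smul_of_nonneg_left h (by linarith)
    rwa [smul_smul, hs', inv_mul_cancel₀ hlp.ne', one_smul, ← hs'] at h4
  have e1 : root m (w b) ≤ s • root m b := by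
    refine key _ _ ?_
    rw [← root_smul hm hwb h0]
    exact root_mono hm (smul_nonneg h0.le hwb) h2
  have e2 : root m b ≤ s • root m (w b) := by
    refine key _ _ ?_
    rw [← root_smul hm hb h0]
    exact root_mono hm (smul_nonneg h0.le hb) h3
  have key2 : ∀ x y : A, y ≤ 1 → x ≤ s • y → x - y ≤ algebraMap ℝ A (s - 1) := by
    intro x y hy h
    calc x - y ≤ s • y - y := sub_le_sub_right h y
      _ = (s - 1) • y := by rw [sub_smul, one_smul]
      _ ≤ (s - 1) • (1 : A) := smul_le_smul_of_nonneg_left hy (by linarith)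
      _ = algebraMap ℝ A (s - 1) := (Algebra.algebraMap_eq_smul_one _).symm
  rw [hwr]
  refine norm_le_of_le ?_ (sub_nonneg.mpr hs1) (key2 _ _ hr1 e1) ?_
  · exact (IsSelfAdjoint.of_nonneg hwr0).sub (IsSelfAdjoint.of_nonneg hr0)
  · rw [neg_sub]
    exact key2 _ _ hwr1 e2

/-- the scalar inequality -/
theorem scalar_ineq {m : ℕ} (hm : 0 < m) {t : ℝ} (h0 : 0 ≤ t) (h1 : t ≤ 1) :
    (1 - t ^ (1 / (m : ℝ))) * (t * (1 - t ^ (1 / (m : ℝ)))) ≤ (2 / (m : ℝ)) ^ 2 := by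
  have hp : (0 : ℝ) ≤ 1 / (m : ℝ) := by positivity
  have hm0 : (0 : ℝ) < m := by exact_mod_cast hm
  obtain ⟨s, hs⟩ : ∃ s : ℝ, s = t ^ (1 / (m : ℝ)) := ⟨_, rfl⟩
  have hs0 : 0 ≤ s := by rw [hs]; exact Real.rpow_nonneg h0 _
  have hs1 : s ≤ 1 := by rw [hs]; exact Real.rpow_le_one h0 h1 hp
  have hst : s ^ m = t := by
    rw [hs, ← Real.rpow_natCast, ← Real.rpow_mul h0, one_div, inv_mul_cancel₀ hm0.ne',
      Real.rpow_one]
  rw [← hs, ← hst]
  obtain ⟨r, hr0, hrs⟩ : ∃ r : ℝ, 0 ≤ r ∧ r * r = s := ⟨√s, Real.sqrt_nonneg s,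
    Real.mul_self_sqrt hs0⟩
  have hr1 : r ≤ 1 := by nlinarith
  have h3 : (1 - r) * (m * r ^ m) ≤ 1 := by
    have h4 : (∑ i ∈ Finset.range m, r ^ i) * (1 - r) = 1 - r ^ m := geom_sum_mul_neg r m
    have h5 : (m : ℝ) * r ^ m ≤ ∑ i ∈ Finset.range m, r ^ i := by
      have h6 : ∀ i ∈ Finset.range m, r ^ m ≤ r ^ i := fun i hi =>
        pow_le_pow_of_le_one hr0 hr1 (Finset.mem_range.mp hi).le
      have h7 := Finset.card_nsmul_le_sum _ _ _ h6
      rwa [Finset.card_range, nsmul_eq_mul] at h7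
    have h6 := mul_le_mul_of_nonneg_right h5 (sub_nonneg.mpr hr1)
    have h7 : 0 ≤ r ^ m := pow_nonneg hr0 m
    nlinarith
  have h4 : (1 - s) * (s ^ m * (1 - s)) = (r ^ m * (1 - s)) ^ 2 := by
    rw [← hrs, mul_pow]
    ring
  rw [h4]
  have h5 : 0 ≤ r ^ m * (1 - s) := mul_nonneg (pow_nonneg hr0 m) (by linarith)
  refine pow_le_pow_left₀ h5 ?_ 2
  rw [le_div_iff₀ hm0]
  have h6 : 1 - s = (1 - r) * (1 + r) := by rw [← hrs]; ring
  rw [h6]
  have h7 : r ^ m * ((1 - r) * (1 + r)) * m = ((1 - r) * (m * r ^ m)) * (1 + r) := by ring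
  rw [h7]
  have h8 : 0 ≤ (1 - r) * (m * r ^ m) :=
    mul_nonneg (by linarith) (mul_nonneg hm0.le (pow_nonneg hr0 m))
  nlinarith

/-- the complement of the root kills everything below `b` -/
theorem norm_root_mul_le {m : ℕ} (hm : 0 < m) {b : A} (hb : 0 ≤ b) (hb1 : ‖b‖ ≤ 1) {y : A}
    {κ : ℝ} (hκ : 0 < κ) (h : κ • (y * star y) ≤ b) :
    ‖(1 - root m b) * y‖ ≤ 2 / (m * √κ) := by
  have hm0 : (0 : ℝ) < m := by exact_mod_cast hm
  have hsa : IsSelfAdjoint b := IsSelfAdjoint.of_nonneg hb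
  have hc := (rootFun_cont hm).continuousOn (s := spectrum ℝ b)
  have hc1 : ContinuousOn (fun t : ℝ => 1 - t ^ (1 / (m : ℝ))) (spectrum ℝ b) :=
    (continuous_const.sub (rootFun_cont hm)).continuousOn
  have hq : 1 - root m b = cfc (fun t : ℝ => 1 - t ^ (1 / (m : ℝ))) b := by
    rw [cfc_sub (fun _ : ℝ => (1 : ℝ)) (fun t : ℝ => t ^ (1 / (m : ℝ))) b continuousOn_const hc,
      cfc_const_one ℝ b hsa]
    rfl
  have hqs : star (1 - root m b) = 1 - root m b := by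
    rw [star_sub, star_one, (IsSelfAdjoint.of_nonneg (root_nonneg hb)).star_eq]
  have h1 : ‖(1 - root m b) * b * (1 - root m b)‖ ≤ (2 / (m : ℝ)) ^ 2 := by
    have h2 : (1 - root m b) * b * (1 - root m b) =
        cfc (fun t : ℝ => (1 - t ^ (1 / (m : ℝ))) * (t * (1 - t ^ (1 / (m : ℝ))))) b := by
      rw [cfc_mul (fun t : ℝ => 1 - t ^ (1 / (m : ℝ))) (fun t : ℝ => t * (1 - t ^ (1 / (m : ℝ)))) b
        hc1 (continuousOn_id.mul hc1), cfc_mul (fun t : ℝ => t)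
        (fun t : ℝ => 1 - t ^ (1 / (m : ℝ))) b continuousOn_id hc1, cfc_id' ℝ b hsa, hq, mul_assoc]
    rw [h2]
    refine norm_cfc_le (by positivity) fun t ht => ?_
    have ht0 := spectrum_nonneg_of_nonneg hb ht
    have ht1 := spec_le_one hb1 ht
    have h3 : 0 ≤ 1 - t ^ (1 / (m : ℝ)) :=
      sub_nonneg.mpr (Real.rpow_le_one ht0 ht1 (by positivity))
    rw [Real.norm_of_nonneg (by positivity)]
    exact scalar_ineq hm ht0 ht1
  have h2 : (1 - root m b) * (y * star y) * (1 - root m b) ≤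
      κ⁻¹ • ((1 - root m b) * b * (1 - root m b)) := by
    have h3 : y * star y ≤ κ⁻¹ • b := by
      have h4 := smul_le_smul_of_nonneg_left h (inv_pos.mpr hκ).le
      rwa [smul_smul, inv_mul_cancel₀ hκ.ne', one_smul] at h4
    have h5 := star_left_conjugate_le_conjugate h3 (1 - root m b)
    rw [hqs] at h5
    refine h5.trans (le_of_eq ?_)
    rw [mul_smul_comm, smul_mul_assoc]
  have h3 : ‖(1 - root m b) * (y * star y) * (1 - root m b)‖ ≤ κ⁻¹ * (2 / (m : ℝ)) ^ 2 := by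
    have h4 : 0 ≤ (1 - root m b) * (y * star y) * (1 - root m b) := by
      have h5 := star_left_conjugate_nonneg (mul_star_self_nonneg y) (1 - root m b)
      rwa [hqs] at h5
    refine (CStarAlgebra.norm_le_norm_of_nonneg_of_le h4 h2).trans ?_
    rw [norm_smul, Real.norm_of_nonneg (inv_pos.mpr hκ).le]
    exact mul_le_mul_of_nonneg_left h1 (inv_pos.mpr hκ).le
  have h4 : ‖(1 - root m b) * y‖ ^ 2 ≤ κ⁻¹ * (2 / (m : ℝ)) ^ 2 := by
    have h5 : (1 - root m b) * (y * star y) * (1 - root m b) =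
        ((1 - root m b) * y) * star ((1 - root m b) * y) := by
      rw [star_mul, hqs]
      noncomm_ring
    rw [h5, CStarRing.norm_self_mul_star] at h3
    rwa [sq]
  have hsq : 0 < √κ := Real.sqrt_pos.mpr hκ
  have h5 : κ⁻¹ * (2 / (m : ℝ)) ^ 2 = (2 / (m * √κ)) ^ 2 := by
    rw [div_pow, div_pow, mul_pow, Real.sq_sqrt hκ.le]
    field_simp
  rw [h5] at h4
  exact (abs_le_of_sq_le_sq' h4 (by positivity)).2

/-- the trace of the root -/
theorem trace_root_le {m : ℕ} (hm : 0 < m) {b : A} (hb : 0 ≤ b) (hb1 : ‖b‖ ≤ 1) {δ : ℝ}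
    (hδ : 0 < δ) (hδ1 : δ ≤ 1) {τ : A →ₗ[ℂ] ℂ} (hτ : TracialState τ) :
    reT τ (root m b) ≤ δ + reT τ b / δ ^ (m - 1) := by
  have _ := hδ1
  have _ := hb1
  have hm0 : (0 : ℝ) < m := by exact_mod_cast hm
  have hsa : IsSelfAdjoint b := IsSelfAdjoint.of_nonneg hb
  have hD : 0 < δ ^ (m - 1) := pow_pos hδ _
  have h1 : root m b ≤ algebraMap ℝ A δ + (δ ^ (m - 1))⁻¹ • b := by
    have h2 : algebraMap ℝ A δ + (δ ^ (m - 1))⁻¹ • b =
        cfc (fun t : ℝ => δ + (δ ^ (m - 1))⁻¹ * t) b := by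
      rw [cfc_const_add δ (fun t : ℝ => (δ ^ (m - 1))⁻¹ * t) b (by fun_prop) hsa,
        cfc_const_mul_id (δ ^ (m - 1))⁻¹ b hsa]
    rw [h2]
    unfold root
    refine cfc_mono (fun t ht => ?_) (rootFun_cont hm).continuousOn (by fun_prop)
    have ht0 := spectrum_nonneg_of_nonneg hb ht
    obtain ⟨s, hs⟩ : ∃ s : ℝ, s = t ^ (1 / (m : ℝ)) := ⟨_, rfl⟩
    have hs0 : 0 ≤ s := by rw [hs]; exact Real.rpow_nonneg ht0 _
    have hst : s ^ m = t := by
      rw [hs, ← Real.rpow_natCast, ← Real.rpow_mul ht0, one_div, inv_mul_cancel₀ hm0.ne',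
        Real.rpow_one]
    rw [← hs, ← hst]
    rcases le_or_gt s δ with hsd | hsd
    · have : 0 ≤ (δ ^ (m - 1))⁻¹ * s ^ m := by positivity
      linarith
    · have h3 : s ^ m = s * s ^ (m - 1) := by
        rw [← pow_succ', Nat.sub_add_cancel hm]
      have h4 : δ ^ (m - 1) ≤ s ^ (m - 1) := pow_le_pow_left₀ hδ.le hsd.le _
      have h5 : s ≤ (δ ^ (m - 1))⁻¹ * s ^ m := by
        rw [inv_mul_eq_div, le_div_iff₀ hD, h3]
        exact mul_le_mul_of_nonneg_left h4 hs0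
      linarith
  have h2 := hτ.rtr.mono h1
  rw [map_add, RTr.algebraMap_apply, map_smul, smul_eq_mul, reT_apply τ 1, hτ.map_one,
    Complex.one_re, mul_one, inv_mul_eq_div] at h2
  exact h2

end Pool.Agent.Lib.EqL
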