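import Pool.Agent.Lib.EqL.Words
import Pool.Agent.Lib.EqL.Root

/-!
# Almost invariant elements that are units on tracially small elements
-/

open scoped ComplexOrder

namespace Pool.Agent.Lib.EqL

open Pool.Agent.Lib.EqGamma

universe u v w

namespace QuasiAux

variable {A : Type*} [CStarAlgebra A] [PartialOrder A] [StarOrderedRing A]

/-- the sum of `y y* + y* y` -/
noncomputable def ysq {κ : Type*} [Fintype κ] (y : κ → A) : A :=
  ∑ i, (y i * star (y i) + star (y i) * y i)

theorem le_sq {κ : Type*} [Fintype κ] (y : κ → A) (i : κ) :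
    y i * star (y i) ≤ ysq y ∧ star (y i) * y i ≤ ysq y := by
  have h0 : ∀ j ∈ Finset.univ, 0 ≤ y j * star (y j) + star (y j) * y j := fun j _ =>
    add_nonneg (mul_star_self_nonneg _) (star_mul_self_nonneg _)
  have h1 : y i * star (y i) + star (y i) * y i ≤ ysq y :=
    Finset.single_le_sum (f := fun j => y j * star (y j) + star (y j) * y j) h0
      (Finset.mem_univ i)
  exact ⟨(le_add_of_nonneg_right (star_mul_self_nonneg _)).trans h1,
    (le_add_of_nonneg_left (mul_star_self_nonneg _)).trans h1⟩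

theorem sq_nonneg' {κ : Type*} [Fintype κ] (y : κ → A) : 0 ≤ ysq y :=
  Finset.sum_nonneg fun _ _ => add_nonneg (mul_star_self_nonneg _) (star_mul_self_nonneg _)

omit [PartialOrder A] [StarOrderedRing A] in
theorem norm_sq_le {κ : Type*} [Fintype κ] (y : κ → A) {C : ℝ} (hy : ∀ i, ‖y i‖ ≤ C) :
    ‖ysq y‖ ≤ Fintype.card κ * (2 * C ^ 2) := by
  unfold ysq
  refine (norm_sum_le _ _).trans ?_
  calc ∑ i, ‖y i * star (y i) + star (y i) * y i‖ ≤ ∑ _i : κ, 2 * C ^ 2 := by
        refine Finset.sum_le_sum fun i _ => ?_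
        have h1 : ‖y i * star (y i)‖ ≤ C ^ 2 := by
          rw [CStarRing.norm_self_mul_star, ← pow_two]
          exact pow_le_pow_left₀ (norm_nonneg _) (hy i) 2
        have h2 : ‖star (y i) * y i‖ ≤ C ^ 2 := by
          rw [CStarRing.norm_star_mul_self, ← pow_two]
          exact pow_le_pow_left₀ (norm_nonneg _) (hy i) 2
        refine (norm_add_le _ _).trans ?_
        linarith
    _ = Fintype.card κ * (2 * C ^ 2) := by simp

omit [PartialOrder A] [StarOrderedRing A] in
theorem tr_sq_le {κ : Type*} [Fintype κ] (y : κ → A) {η : ℝ} {τ : A →ₗ[ℂ] ℂ}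
    (hτ : TracialState τ) (hy : ∀ i, reT τ (star (y i) * y i) ≤ η) :
    reT τ (ysq y) ≤ Fintype.card κ * (2 * η) := by
  unfold ysq
  rw [map_sum]
  calc ∑ i, reT τ (y i * star (y i) + star (y i) * y i) ≤ ∑ _i : κ, 2 * η := by
        refine Finset.sum_le_sum fun i _ => ?_
        rw [map_add]
        have h1 : reT τ (y i * star (y i)) = reT τ (star (y i) * y i) := by
          rw [reT_apply, reT_apply, hτ.tracial]
        rw [h1]
        linarith [hy i]
    _ = Fintype.card κ * (2 * η) := by simp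

end QuasiAux

open QuasiAux in
/-- If finitely many bounded elements `y i` are small in all `L^2` norms then there is a positive
contraction `c`, small in all traces, almost invariant under finitely many automorphisms, such
that `(1 - c) y i` and `y i (1 - c)` are small in norm. The smallness `η` needed depends only on
the number of the automorphisms and of the elements, on their norm and on `ε`. -/
theorem exists_quasi_unit (N D : ℕ) (C : ℝ) {ε : ℝ} (hε : 0 < ε) :
    ∃ η : ℝ, 0 < η ∧ ∀ (A : Type u) [CStarAlgebra A] [PartialOrder A] [StarOrderedRing A]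
      (ι : Type v) (κ : Type w) [Fintype ι] [Fintype κ], Fintype.card ι ≤ N →
      Fintype.card κ ≤ D → ∀ (W : ι → (A ≃⋆ₐ[ℂ] A)) (y : κ → A), (∀ i, ‖y i‖ ≤ C) →
      (∀ i, ∀ τ : A →ₗ[ℂ] ℂ, TracialState τ → reT τ (star (y i) * y i) ≤ η) →
      ∃ c : A, 0 ≤ c ∧ c ≤ 1 ∧ (∀ τ : A →ₗ[ℂ] ℂ, TracialState τ → reT τ c ≤ ε) ∧
        (∀ i, ‖(1 - c) * y i‖ ≤ ε ∧ ‖y i * (1 - c)‖ ≤ ε) ∧ ∀ i, ‖W i c - c‖ ≤ ε := by
  set lam : ℝ := 1 / (2 * (2 * N + 1)) with hlam
  have hlam0 : 0 < lam := by positivity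
  have hlam1 : lam ≤ 1 := by
    rw [hlam, div_le_one (by positivity)]
    have : (0:ℝ) ≤ N := Nat.cast_nonneg N
    linarith
  set κ0 : ℝ := 1 / (4 * (D + 1) * (C ^ 2 + 1)) with hκ0
  have hκ0p : 0 < κ0 := by positivity
  -- the exponent of the root
  have lim1 : Filter.Tendsto (fun m : ℕ => (1 / lam) ^ (1 / (m : ℝ)) - 1) Filter.atTop (nhds 0) := by
    have h1 : Filter.Tendsto (fun m : ℕ => (1 / (m : ℝ))) Filter.atTop (nhds 0) :=
      tendsto_one_div_atTop_nhds_zero_nat
    have h2 : Filter.Tendsto (fun m : ℕ => (1 / lam) ^ (1 / (m : ℝ))) Filter.atTop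
        (nhds ((1 / lam) ^ (0:ℝ))) :=
      tendsto_const_nhds.rpow h1 (Or.inl (by positivity))
    rw [Real.rpow_zero] at h2
    have h3 := h2.sub_const 1
    rwa [sub_self] at h3
  have lim2 : Filter.Tendsto (fun m : ℕ => 2 / ((m : ℝ) * √κ0)) Filter.atTop (nhds 0) := by
    have h1 : Filter.Tendsto (fun m : ℕ => (m : ℝ) * √κ0) Filter.atTop Filter.atTop :=
      tendsto_natCast_atTop_atTop.atTop_mul_const (Real.sqrt_pos.2 hκ0p)
    exact h1.const_div_atTop 2
  obtain ⟨m, hm1, hm2, hm3⟩ := ((lim1.eventually_le_const hε).and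
    ((lim2.eventually_le_const hε).and (Filter.eventually_gt_atTop 0))).exists
  set δ : ℝ := min (ε / 2) 1 with hδ
  have hδ0 : 0 < δ := lt_min (by positivity) one_pos
  have hδ1 : δ ≤ 1 := min_le_right _ _
  have hδm : 0 < δ ^ (m - 1) := pow_pos hδ0 _
  refine ⟨ε / 2 * δ ^ (m - 1) / (4 * (D + 1) * κ0), by positivity, ?_⟩
  intro A _ _ _ ι κ _ _ hι hκ W y hy htr
  have hy' : ∀ i, ‖y i‖ ≤ |C| := fun i => (hy i).trans (le_abs_self C)
  have hD : (Fintype.card κ : ℝ) ≤ D := by exact_mod_cast hκ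
  have hD0 : (0:ℝ) ≤ Fintype.card κ := Nat.cast_nonneg _
  -- the starting element
  set b0 : A := κ0 • ysq y with hb0
  have hb0n : 0 ≤ b0 := smul_nonneg hκ0p.le (sq_nonneg' y)
  have hb0norm : ‖b0‖ ≤ 1 / 2 := by
    rw [hb0, norm_smul, Real.norm_of_nonneg hκ0p.le]
    have h1 := norm_sq_le y hy'
    rw [sq_abs] at h1
    have h2 : (Fintype.card κ : ℝ) * (2 * C ^ 2) ≤ (D + 1) * (2 * (C ^ 2 + 1)) := by
      have : (0:ℝ) ≤ C ^ 2 := sq_nonneg C
      apply mul_le_mul <;> linarith
    calc κ0 * ‖ysq y‖ ≤ κ0 * ((D + 1) * (2 * (C ^ 2 + 1))) :=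
          mul_le_mul_of_nonneg_left (h1.trans h2) hκ0p.le
      _ = 1 / 2 := by
          rw [hκ0]
          field_simp
          norm_num
  -- the automorphisms
  set n : ℕ := Fintype.card (ι ⊕ ι) with hn
  let e := Fintype.equivFin (ι ⊕ ι)
  let V : Fin n → (A ≃⋆ₐ[ℂ] A) := fun k => Sum.elim W (fun i => (W i).symm) (e.symm k)
  have hn1 : lam * n ≤ 1 / 2 := by
    have h1 : (n : ℝ) ≤ 2 * N + 1 := by
      have : n ≤ 2 * N := by
        rw [hn, Fintype.card_sum]
        omega
      have h2 : (n : ℝ) ≤ 2 * N := by exact_mod_cast this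
      linarith
    calc lam * n ≤ lam * (2 * N + 1) := mul_le_mul_of_nonneg_left h1 hlam0.le
      _ = 1 / 2 := by
          rw [hlam]
          field_simp
  obtain ⟨b, hb1, hb2, hb3, hb4⟩ := exists_majorant V hlam0 hn1 hb0n
  have hbn : 0 ≤ b := hb0n.trans hb1
  have hbnorm : ‖b‖ ≤ 1 := by linarith
  have hW1 : ∀ i, lam • W i b ≤ b := by
    intro i
    have h := hb3 (e (Sum.inl i))
    simpa [V] using h
  have hW2 : ∀ i, lam • (W i).symm b ≤ b := by
    intro i
    have h := hb3 (e (Sum.inr i))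
    simpa [V] using h
  have hW3 : ∀ i, lam • b ≤ W i b := by
    intro i
    have h1 : 0 ≤ W i (b - lam • (W i).symm b) := map_nonneg (W i) (sub_nonneg.2 (hW2 i))
    rw [map_sub] at h1
    have h2 : W i (lam • (W i).symm b) = lam • b := by
      have h3 : (lam • (W i).symm b : A) = ((lam : ℂ)) • (W i).symm b :=
        (Complex.coe_smul lam _).symm
      rw [h3, map_smul, StarAlgEquiv.apply_symm_apply]
      exact Complex.coe_smul lam b
    rw [h2] at h1
    exact sub_nonneg.1 h1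
  have hy1 : ∀ i, κ0 • (y i * star (y i)) ≤ b := fun i =>
    (smul_le_smul_of_nonneg_left (le_sq y i).1 hκ0p.le).trans hb1
  have hy2 : ∀ i, κ0 • (star (y i) * star (star (y i))) ≤ b := fun i => by
    rw [star_star]
    exact (smul_le_smul_of_nonneg_left (le_sq y i).2 hκ0p.le).trans hb1
  refine ⟨root m b, root_nonneg hbn, root_le_one hm3 hbn hbnorm, ?_, ?_, ?_⟩
  · intro τ hτ
    refine (trace_root_le hm3 hbn hbnorm hδ0 hδ1 hτ).trans ?_
    set η : ℝ := ε / 2 * δ ^ (m - 1) / (4 * (D + 1) * κ0) with hη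
    have hη0 : 0 < η := by positivity
    have h1 : ∀ τ : A →ₗ[ℂ] ℂ, TracialState τ → reT τ b0 ≤ κ0 * (D * (2 * η)) := by
      intro τ hτ
      rw [hb0, map_smul, smul_eq_mul]
      refine mul_le_mul_of_nonneg_left ?_ hκ0p.le
      refine (tr_sq_le y hτ fun i => htr i τ hτ).trans ?_
      exact mul_le_mul_of_nonneg_right hD (by positivity)
    have h2 := hb4 _ h1 τ hτ
    have h3 : 2 * (κ0 * (D * (2 * η))) ≤ ε / 2 * δ ^ (m - 1) := by
      have h4 : 2 * (κ0 * (D * (2 * η))) = (4 * κ0 * η) * D := by ring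
      have h5 : (4 * κ0 * η) * (D + 1) = ε / 2 * δ ^ (m - 1) := by
        rw [hη]
        field_simp
      rw [h4, ← h5]
      exact mul_le_mul_of_nonneg_left (by linarith) (by positivity)
    have h4 : reT τ b / δ ^ (m - 1) ≤ ε / 2 := by
      rw [div_le_iff₀ hδm]
      exact h2.trans h3
    have h5 : δ ≤ ε / 2 := min_le_left _ _
    linarith
  · intro i
    have h1 := norm_root_mul_le hm3 hbn hbnorm hκ0p (hy1 i)
    have h2 := norm_root_mul_le hm3 hbn hbnorm hκ0p (hy2 i)
    refine ⟨h1.trans hm2, ?_⟩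
    have h3 : y i * (1 - root m b) = star ((1 - root m b) * star (y i)) := by
      rw [star_mul, star_star, star_sub, star_one,
        (IsSelfAdjoint.of_nonneg (root_nonneg hbn)).star_eq]
    rw [h3, norm_star]
    exact h2.trans hm2
  · intro i
    exact (norm_root_sub_le hm3 hbn hbnorm (W i) hlam0 hlam1 (hW1 i) (hW3 i)).trans hm1

end Pool.Agent.Lib.EqL
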