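import Pool.Agent.Lib.EqM.Defs
import Pool.Agent.Lib.EqGamma.GFinal

/-!
# Quasi-invariant majorants

For a finite family `W` of automorphisms and `b0 ≥ 0` the equation `b = b0 + lam ∑ W i b` has a
solution, which satisfies `b0 ≤ b` and `lam * W i b ≤ b`.
-/

open scoped ComplexOrder

namespace Pool.Agent.Lib.EqL

open Pool.Agent.Lib.EqGamma

variable {A : Type*} [CStarAlgebra A] [PartialOrder A] [StarOrderedRing A]

section aux

omit [PartialOrder A] [StarOrderedRing A] in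
private theorem words_norm (φ : A ≃⋆ₐ[ℂ] A) (x : A) : ‖φ x‖ = ‖x‖ :=
  StarAlgEquiv.norm_map φ x

private theorem words_nonneg (φ : A ≃⋆ₐ[ℂ] A) {x : A} (hx : 0 ≤ x) : 0 ≤ φ x := by
  obtain ⟨y, rfl⟩ := CStarAlgebra.nonneg_iff_eq_star_mul_self.1 hx
  rw [map_mul, map_star]
  exact star_mul_self_nonneg _

/-- the operator `lam ∑ W i` -/
private noncomputable def wT {N : ℕ} (W : Fin N → (A ≃⋆ₐ[ℂ] A)) (lam : ℝ) (x : A) : A :=
  lam • ∑ i, W i x

omit [PartialOrder A] [StarOrderedRing A] in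
private theorem wT_sub {N : ℕ} (W : Fin N → (A ≃⋆ₐ[ℂ] A)) (lam : ℝ) (x y : A) :
    wT W lam x - wT W lam y = wT W lam (x - y) := by
  unfold wT
  rw [← smul_sub, ← Finset.sum_sub_distrib]
  congr 1
  exact Finset.sum_congr rfl fun i _ => (map_sub (W i) x y).symm

omit [PartialOrder A] [StarOrderedRing A] in
private theorem wT_norm {N : ℕ} (W : Fin N → (A ≃⋆ₐ[ℂ] A)) {lam : ℝ} (h0 : 0 < lam)
    (h1 : lam * N ≤ 1 / 2) (x : A) : ‖wT W lam x‖ ≤ 1 / 2 * ‖x‖ := by
  unfold wT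
  rw [norm_smul, Real.norm_of_nonneg h0.le]
  have h2 : ‖∑ i, W i x‖ ≤ N * ‖x‖ := by
    refine (norm_sum_le _ _).trans ?_
    rw [Finset.sum_congr rfl fun i _ => words_norm (W i) x]
    simp
  calc lam * ‖∑ i, W i x‖ ≤ lam * (N * ‖x‖) := mul_le_mul_of_nonneg_left h2 h0.le
    _ = (lam * N) * ‖x‖ := by ring
    _ ≤ 1 / 2 * ‖x‖ := mul_le_mul_of_nonneg_right h1 (norm_nonneg x)

private theorem wT_nonneg {N : ℕ} (W : Fin N → (A ≃⋆ₐ[ℂ] A)) {lam : ℝ} (h0 : 0 < lam) {x : A}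
    (hx : 0 ≤ x) : 0 ≤ wT W lam x :=
  smul_nonneg h0.le (Finset.sum_nonneg fun i _ => words_nonneg (W i) hx)

end aux

theorem exists_majorant {N : ℕ} (W : Fin N → (A ≃⋆ₐ[ℂ] A)) {lam : ℝ} (h0 : 0 < lam)
    (h1 : lam * N ≤ 1 / 2) {b0 : A} (hb : 0 ≤ b0) :
    ∃ b : A, b0 ≤ b ∧ ‖b‖ ≤ 2 * ‖b0‖ ∧ (∀ i, lam • W i b ≤ b) ∧
      ∀ η : ℝ, (∀ τ : A →ₗ[ℂ] ℂ, TracialState τ → reT τ b0 ≤ η) →
        ∀ τ : A →ₗ[ℂ] ℂ, TracialState τ → reT τ b ≤ 2 * η := by
  have hc : ContractingWith (1 / 2) (fun x : A => b0 + wT W lam x) := by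
    refine ⟨by
      rw [← NNReal.coe_lt_coe]
      push_cast
      norm_num, LipschitzWith.of_dist_le_mul fun x y => ?_⟩
    rw [dist_eq_norm, dist_eq_norm, add_sub_add_left_eq_sub, wT_sub]
    simpa using wT_norm W h0 h1 (x - y)
  obtain ⟨b, hbdef⟩ : ∃ b, b = ContractingWith.fixedPoint _ hc := ⟨_, rfl⟩
  have hfix : b0 + wT W lam b = b := by
    rw [hbdef]
    exact hc.fixedPoint_isFixedPt
  have hlim := hc.tendsto_iterate_fixedPoint 0
  rw [← hbdef] at hlim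
  have hit : ∀ n : ℕ, 0 ≤ (fun x : A => b0 + wT W lam x)^[n] 0 := by
    intro n
    induction n with
    | zero => exact le_refl _
    | succ n ih =>
      rw [Function.iterate_succ_apply']
      exact add_nonneg hb (wT_nonneg W h0 ih)
  have hb' : 0 ≤ b := ge_of_tendsto' hlim hit
  have hTb : 0 ≤ wT W lam b := wT_nonneg W h0 hb'
  refine ⟨b, ?_, ?_, ?_, ?_⟩
  · conv_rhs => rw [← hfix]
    exact le_add_of_nonneg_right hTb
  · have h2 : ‖b‖ ≤ ‖b0‖ + 1 / 2 * ‖b‖ := by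
      calc ‖b‖ = ‖b0 + wT W lam b‖ := by rw [hfix]
        _ ≤ ‖b0‖ + ‖wT W lam b‖ := norm_add_le _ _
        _ ≤ ‖b0‖ + 1 / 2 * ‖b‖ := by gcongr; exact wT_norm W h0 h1 b
    linarith
  · intro i
    have h2 : lam • W i b ≤ wT W lam b := by
      unfold wT
      exact smul_le_smul_of_nonneg_left (Finset.single_le_sum (f := fun i => W i b)
        (fun j _ => words_nonneg (W j) hb') (Finset.mem_univ i)) h0.le
    refine h2.trans ?_
    conv_rhs => rw [← hfix]
    exact le_add_of_nonneg_left hb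
  · intro η hη τ hτ
    have hη0 : 0 ≤ η := (hτ.rtr.nonneg hb).trans (hη τ hτ)
    have step : ∀ C : ℝ, 0 ≤ C → (∀ τ : A →ₗ[ℂ] ℂ, TracialState τ → reT τ b ≤ C) →
        ∀ τ : A →ₗ[ℂ] ℂ, TracialState τ → reT τ b ≤ η + C / 2 := by
      intro C hC hC2 τ hτ
      have e1 : reT τ b = reT τ b0 + lam * ∑ i, reT (pull τ (W i)) b := by
        conv_lhs => rw [← hfix]
        rw [map_add]
        unfold wT
        rw [map_smul, smul_eq_mul, map_sum]
        rfl
      have e2 : ∑ i, reT (pull τ (W i)) b ≤ N * C := by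
        calc ∑ i, reT (pull τ (W i)) b ≤ ∑ _i : Fin N, C :=
              Finset.sum_le_sum fun i _ => hC2 _ (hτ.pull (W i))
          _ = N * C := by simp
      rw [e1]
      have e3 : lam * ∑ i, reT (pull τ (W i)) b ≤ C / 2 := by
        calc lam * ∑ i, reT (pull τ (W i)) b ≤ lam * (N * C) :=
              mul_le_mul_of_nonneg_left e2 h0.le
          _ = (lam * N) * C := by ring
          _ ≤ 1 / 2 * C := mul_le_mul_of_nonneg_right h1 hC
          _ = C / 2 := by ring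
      linarith [hη τ hτ]
    have hall : ∀ n : ℕ, ∀ τ : A →ₗ[ℂ] ℂ, TracialState τ →
        reT τ b ≤ 2 * η + ‖b‖ * (1 / 2) ^ n := by
      intro n
      induction n with
      | zero =>
        intro τ hτ
        have h3 : reT τ b ≤ ‖b‖ := (Complex.re_le_norm _).trans (hτ.norm_le b)
        linarith
      | succ n ih =>
        intro τ hτ
        have h3 := step _ (by positivity) ih τ hτ
        rw [pow_succ]
        linarith
    have hlim2 : Filter.Tendsto (fun n : ℕ => 2 * η + ‖b‖ * (1 / 2 : ℝ) ^ n) Filter.atTop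
        (nhds (2 * η + ‖b‖ * 0)) :=
      (((tendsto_pow_atTop_nhds_zero_of_lt_one (by norm_num) (by norm_num)).const_mul _).const_add _)
    rw [mul_zero, add_zero] at hlim2
    exact ge_of_tendsto' hlim2 fun n => hall n τ hτ

end Pool.Agent.Lib.EqL
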